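import Pool.Agent.H52.PAG.Defs

/-!
# Virtual braid groups: definitions

`VB n` is the virtual braid group with `n + 1` strands: generators `σ_i`, `0 ≤ i < n`, and the permutations of
`{0, …, n}`, with the braid relations of the `σ_i`, the multiplication of the permutations and the relations
`p σ_i p⁻¹ = σ_j` for the permutations `p` with `p i = j` and `p (i + 1) = j + 1`.
-/

set_option autoImplicit false

namespace Pool.Agent.H54.VB

/-- the generator `σ_i` of the free group -/
def fs {n : ℕ} (i : Fin n) : FreeGroup (Fin n ⊕ Equiv.Perm (Fin (n + 1))) := FreeGroup.of (Sum.inl i)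

/-- the generator `p` of the free group, `p` a permutation -/
def ft {n : ℕ} (p : Equiv.Perm (Fin (n + 1))) : FreeGroup (Fin n ⊕ Equiv.Perm (Fin (n + 1))) :=
  FreeGroup.of (Sum.inr p)

/-- the relations of the virtual braid group -/
inductive VRel (n : ℕ) : FreeGroup (Fin n ⊕ Equiv.Perm (Fin (n + 1))) → Prop
  | comm (i j : Fin n) : i.val + 1 < j.val → VRel n (fs i * fs j * (fs j * fs i)⁻¹)
  | braid (i j : Fin n) : i.val + 1 = j.val → VRel n (fs i * fs j * fs i * (fs j * fs i * fs j)⁻¹)
  | perm (p q : Equiv.Perm (Fin (n + 1))) : VRel n (ft p * ft q * (ft (p * q))⁻¹)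
  | mixed (p : Equiv.Perm (Fin (n + 1))) (i j : Fin n) : p i.castSucc = j.castSucc → p i.succ = j.succ →
      VRel n (ft p * fs i * (fs j * ft p)⁻¹)

/-- the virtual braid group with `n + 1` strands -/
def VB (n : ℕ) : Type := PresentedGroup {w | VRel n w}

instance (n : ℕ) : Group (VB n) := (inferInstance : Group (PresentedGroup {w | VRel n w}))

variable {n : ℕ}

/-- the generator `σ_i` -/
def sg (i : Fin n) : VB n := PresentedGroup.of (Sum.inl i)

/-- the permutations -/
def tt (p : Equiv.Perm (Fin (n + 1))) : VB n := PresentedGroup.of (Sum.inr p)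

theorem rel_eq {a b : FreeGroup (Fin n ⊕ Equiv.Perm (Fin (n + 1)))} (h : VRel n (a * b⁻¹)) :
    (PresentedGroup.mk {w | VRel n w} a) = PresentedGroup.mk {w | VRel n w} b := by
  have h1 : PresentedGroup.mk {w | VRel n w} (a * b⁻¹) = 1 :=
    (QuotientGroup.eq_one_iff _).2 (Subgroup.subset_normalClosure h)
  rw [map_mul, map_inv, mul_inv_eq_one] at h1
  exact h1

theorem sg_comm {i j : Fin n} (h : i.val + 1 < j.val) : sg i * sg j = sg j * sg i := by
  have h1 := rel_eq (VRel.comm i j h)
  rw [map_mul, map_mul] at h1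
  exact h1

theorem sg_braid {i j : Fin n} (h : i.val + 1 = j.val) : sg i * sg j * sg i = sg j * sg i * sg j := by
  have h1 := rel_eq (VRel.braid i j h)
  rw [map_mul, map_mul, map_mul, map_mul] at h1
  exact h1

theorem tt_mul (p q : Equiv.Perm (Fin (n + 1))) : (tt p : VB n) * tt q = tt (p * q) := by
  have h1 := rel_eq (VRel.perm p q)
  rw [map_mul] at h1
  exact h1

theorem tt_sg {p : Equiv.Perm (Fin (n + 1))} {i j : Fin n} (h1 : p i.castSucc = j.castSucc) (h2 : p i.succ = j.succ) :
    tt p * sg i = sg j * tt p := by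
  have h3 := rel_eq (VRel.mixed p i j h1 h2)
  rw [map_mul, map_mul] at h3
  exact h3

/-- the permutations as a homomorphism -/
def tH : Equiv.Perm (Fin (n + 1)) →* VB n where
  toFun := tt
  map_one' := by
    have h1 : (tt (1 : Equiv.Perm (Fin (n + 1))) : VB n) * tt 1 = tt 1 := by rw [tt_mul, mul_one]
    exact mul_eq_left.1 h1
  map_mul' p q := (tt_mul p q).symm

/-- homomorphisms from the virtual braid group -/
def vlift {G : Type} [Group G] (f : Fin n → G) (g : Equiv.Perm (Fin (n + 1)) →* G)
    (hc : ∀ i j : Fin n, i.val + 1 < j.val → f i * f j = f j * f i)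
    (hb : ∀ i j : Fin n, i.val + 1 = j.val → f i * f j * f i = f j * f i * f j)
    (hm : ∀ (p : Equiv.Perm (Fin (n + 1))) (i j : Fin n), p i.castSucc = j.castSucc → p i.succ = j.succ →
      g p * f i = f j * g p) : VB n →* G :=
  PresentedGroup.toGroup (f := Sum.elim f g) (by
    intro w hw
    have hw : VRel n w := hw
    cases hw with
    | comm i j h =>
      rw [map_mul, map_inv, map_mul, map_mul, mul_inv_eq_one]
      simp only [fs, FreeGroup.lift_apply_of, Sum.elim_inl]
      exact hc i j h
    | braid i j h =>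
      rw [map_mul, map_inv, map_mul, map_mul, map_mul, map_mul, mul_inv_eq_one]
      simp only [fs, FreeGroup.lift_apply_of, Sum.elim_inl]
      exact hb i j h
    | perm p q =>
      rw [map_mul, map_inv, map_mul, mul_inv_eq_one]
      simp only [ft, FreeGroup.lift_apply_of, Sum.elim_inr]
      exact (map_mul g p q).symm
    | mixed p i j h1 h2 =>
      rw [map_mul, map_inv, map_mul, map_mul, mul_inv_eq_one]
      simp only [fs, ft, FreeGroup.lift_apply_of, Sum.elim_inl, Sum.elim_inr]
      exact hm p i j h1 h2)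

section

variable {G : Type} [Group G] (f : Fin n → G) (g : Equiv.Perm (Fin (n + 1)) →* G)
    (hc : ∀ i j : Fin n, i.val + 1 < j.val → f i * f j = f j * f i)
    (hb : ∀ i j : Fin n, i.val + 1 = j.val → f i * f j * f i = f j * f i * f j)
    (hm : ∀ (p : Equiv.Perm (Fin (n + 1))) (i j : Fin n), p i.castSucc = j.castSucc → p i.succ = j.succ →
      g p * f i = f j * g p)

theorem vlift_sg (i : Fin n) : vlift f g hc hb hm (sg i) = f i := PresentedGroup.toGroup.of _

theorem vlift_tt (p : Equiv.Perm (Fin (n + 1))) : vlift f g hc hb hm (tt p) = g p := PresentedGroup.toGroup.of _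

end

theorem vb_ext {G : Type} [Group G] {f g : VB n →* G} (h1 : ∀ i, f (sg i) = g (sg i))
    (h2 : ∀ p, f (tt p) = g (tt p)) : f = g :=
  PresentedGroup.ext (rels := {w | VRel n w}) (φ := f) (ψ := g) (by
    rintro (i | p)
    · exact h1 i
    · exact h2 p)

end Pool.Agent.H54.VB
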