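import Pool.Agent.H54.VB.Main
import Pool.Agent.H52.CD.Fin
import Pool.Agent.H75.CD.H3

/-!
# The virtual braid groups are in the class

The kernel of the homomorphism from the virtual braid group to the symmetric group is an Artin group. The irreducible sets of
generators without label `0` are paths and circuits with labels `3`.
-/

set_option autoImplicit false

namespace Pool.Agent.H54.VB

open Pool.Agent.H98.FJ Pool.Agent.H54.CX Pool.Agent.H52.PAG Pool.Agent.H52.CD
open Pool.Agent.H54.AR (rst)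

theorem art_mem (C : (G : Type) → [Group G] → Prop) (hC : Inherits C) (hE : Extension C)
    (hcat : Cat2 C) (hGL : ∀ n : ℕ, C (GL (Fin n) ℤ))
    (hF : ∀ (n : ℕ) (φ : MulAut (FreeGroup (Fin n))), C (FreeGroup (Fin n) ⋊[zpowersHom _ φ] Multiplicative ℤ))
    (n : ℕ) : C (Art (vM n)) :=
  aff_mem4 hC hE hF hcat hGL (Pr n) (vM n) fun K hK _ => Or.inr fun T hT _ _ _ =>
    ⟨psd T (fun x hx y hy => hK x (hT hx) y (hT hy)), fun ⟨c, hc⟩ => by
      by_cases h1 : c = .H3
      · subst h1
        exact Pool.Agent.H75.CD.h3_mem hC hE (Pool.Agent.H98.DF.freeByZ_of_fin hC hE hF) (vM n) T hc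
      · exact absurd hc (not_ex T (fun x hx y hy => hK x (hT hx) y (hT hy)) c h1)⟩

/-- the virtual braid groups are in the class -/
theorem fj (C : (G : Type) → [Group G] → Prop) (hC : Inherits C) (hE : Extension C)
    (hcat : Cat2 C) (hGL : ∀ n : ℕ, C (GL (Fin n) ℤ))
    (hF : ∀ (n : ℕ) (φ : MulAut (FreeGroup (Fin n))), C (FreeGroup (Fin n) ⋊[zpowersHom _ φ] Multiplicative ℤ))
    (n : ℕ) : C (VB n) :=
  vb_mem hC n (art_mem C hC hE hcat hGL hF n)

end Pool.Agent.H54.VB
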