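import Pool.Agent.H52.CD.Def

/-!
# The Coxeter matrix of the kernel of the virtual braid group

The generators are the ordered pairs `(i, j)`, `i ≠ j`. The label of `(i, j)` and `(j, k)` is `3`, the label of disjoint pairs is
`2`, all other labels are `0`. The form of a set without label `0` is positive semidefinite, and the set is not one of the
exceptional diagrams.
-/

set_option autoImplicit false

namespace Pool.Agent.H54.VB

open Pool.Agent.H52.CD

/-- the ordered pairs of different elements -/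
abbrev Pr (n : ℕ) : Type := {x : Fin (n + 1) × Fin (n + 1) // x.1 ≠ x.2}

variable {n : ℕ}

/-- the second pair continues the first one -/
def Fol (x y : Pr n) : Prop := x.1.2 = y.1.1 ∧ x.1.1 ≠ y.1.2

instance (x y : Pr n) : Decidable (Fol x y) := inferInstanceAs (Decidable (_ ∧ _))

/-- disjoint pairs -/
def Dj (x y : Pr n) : Prop := x.1.1 ≠ y.1.1 ∧ x.1.1 ≠ y.1.2 ∧ x.1.2 ≠ y.1.1 ∧ x.1.2 ≠ y.1.2

instance (x y : Pr n) : Decidable (Dj x y) := inferInstanceAs (Decidable (_ ∧ _))

/-- the labels -/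
def vlab (x y : Pr n) : ℕ := if x = y then 1 else if Fol x y ∨ Fol y x then 3 else if Dj x y then 2 else 0

theorem Dj.symm {x y : Pr n} (h : Dj x y) : Dj y x := ⟨h.1.symm, h.2.2.1.symm, h.2.1.symm, h.2.2.2.symm⟩

/-- the Coxeter matrix -/
def vM (n : ℕ) : CoxeterMatrix (Pr n) where
  M := Matrix.of vlab
  isSymm := by
    ext x y
    simp only [Matrix.transpose_apply, Matrix.of_apply, vlab]
    have h1 : (x = y) = (y = x) := propext eq_comm
    have h2 : (Fol x y ∨ Fol y x) = (Fol y x ∨ Fol x y) := propext or_comm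
    have h3 : Dj x y = Dj y x := propext ⟨Dj.symm, Dj.symm⟩
    simp only [h1, h2, h3]
  diagonal x := by simp [vlab]
  off_diagonal x y h := by
    simp only [Matrix.of_apply, vlab, if_neg h]
    split_ifs <;> decide

theorem vM_apply (x y : Pr n) : vM n x y = vlab x y := rfl

theorem Fol.ne {x y : Pr n} (h : Fol x y) : x ≠ y := by
  rintro rfl
  exact x.2 h.1.symm

theorem not_fol_both {x y : Pr n} (h : Fol x y) : ¬ Fol y x := fun h1 => h.2 h1.1.symm

theorem vlab_fol {x y : Pr n} (h : Fol x y) : vlab x y = 3 := by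
  rw [vlab, if_neg h.ne, if_pos (Or.inl h)]

theorem vlab_dj {x y : Pr n} (h : Dj x y) : vlab x y = 2 := by
  rw [vlab, if_neg (fun h1 => h.1 (by rw [h1])), if_neg, if_pos h]
  rintro (h1 | h1)
  · exact h.2.2.1 h1.1
  · exact h.2.1 h1.1.symm

theorem vlab_cases {x y : Pr n} (h : vlab x y ≠ 0) : x = y ∨ Fol x y ∨ Fol y x ∨ Dj x y := by
  unfold vlab at h
  split_ifs at h with h1 h2 h3
  · exact Or.inl h1
  · exact Or.inr (h2.elim Or.inl fun h => Or.inr (Or.inl h))
  · exact Or.inr (Or.inr (Or.inr h3))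
  · exact absurd rfl h

/-- there is at most one continuation -/
theorem fol_unique {x y z : Pr n} (h1 : Fol x y) (h2 : Fol x z) (h : vlab y z ≠ 0) : y = z := by
  have e : y.1.1 = z.1.1 := h1.1.symm.trans h2.1
  rcases vlab_cases h with h3 | h3 | h3 | h3
  · exact h3
  · exact absurd (h3.1.trans e.symm) y.2.symm
  · exact absurd (h3.1.trans e) z.2.symm
  · exact absurd e h3.1

/-- there is at most one predecessor -/
theorem fol_unique' {x y z : Pr n} (h1 : Fol y x) (h2 : Fol z x) (h : vlab y z ≠ 0) : y = z := by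
  have e : y.1.2 = z.1.2 := h1.1.trans h2.1.symm
  rcases vlab_cases h with h3 | h3 | h3 | h3
  · exact h3
  · exact absurd (h3.1.symm.trans e) z.2
  · exact absurd (h3.1.symm.trans e.symm) y.2
  · exact absurd e h3.2.2.2

theorem neg_cos (x y : Pr n) (h : vlab x y ≠ 0) :
    -Real.cos (Real.pi / (vlab x y : ℝ)) =
      (if x = y then 1 else 0) - (if Fol x y then 1 / 2 else 0) - (if Fol y x then 1 / 2 else 0) := by
  rcases vlab_cases h with h1 | h1 | h1 | h1
  · subst h1
    have h2 : ¬ Fol x x := fun h => h.ne rfl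
    rw [if_pos rfl, if_neg h2]
    simp [vlab]
  · rw [vlab_fol h1, if_neg h1.ne, if_pos h1, if_neg (not_fol_both h1)]
    push_cast
    rw [Real.cos_pi_div_three]
    norm_num
  · have h2 : vlab x y = vlab y x := by
      exact (vM n).symmetric x y
    rw [h2, vlab_fol h1, if_neg h1.ne.symm, if_neg (not_fol_both h1), if_pos h1]
    push_cast
    rw [Real.cos_pi_div_three]
    norm_num
  · rw [vlab_dj h1, if_neg (fun h2 => h1.1 (by rw [h2])), if_neg (fun h2 => h1.2.2.1 h2.1),
      if_neg (fun h2 => h1.2.1 h2.1.symm)]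
    push_cast
    rw [Real.cos_pi_div_two]
    norm_num

/-- the form of a set without label `0` is positive semidefinite -/
theorem psd (T : Finset (Pr n)) (hT : ∀ x ∈ T, ∀ y ∈ T, vM n x y ≠ 0) (v : Pr n → ℝ) :
    0 ≤ ∑ x ∈ T, ∑ y ∈ T, v x * v y * -Real.cos (Real.pi / vM n x y) := by
  have e1 : ∀ x ∈ T, ∀ y ∈ T, v x * v y * -Real.cos (Real.pi / vM n x y) =
      (if x = y then v x * v y else 0) - (if Fol x y then v x * v y / 2 else 0) -
        (if Fol y x then v x * v y / 2 else 0) := by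
    intro x hx y hy
    rw [show ((vM n x y : ℕ) : ℝ) = (vlab x y : ℝ) from rfl, neg_cos x y (hT x hx y hy)]
    split_ifs <;> ring
  rw [Finset.sum_congr rfl fun x hx => Finset.sum_congr rfl fun y hy => e1 x hx y hy]
  simp only [Finset.sum_sub_distrib]
  have e2 : ∑ x ∈ T, ∑ y ∈ T, (if x = y then v x * v y else 0) = ∑ x ∈ T, v x ^ 2 := by
    refine Finset.sum_congr rfl fun x hx => ?_
    rw [Finset.sum_ite_eq T x fun y => v x * v y, if_pos hx]
    ring
  have e3 : ∑ x ∈ T, ∑ y ∈ T, (if Fol y x then v x * v y / 2 else 0) =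
      ∑ x ∈ T, ∑ y ∈ T, (if Fol x y then v x * v y / 2 else 0) := by
    rw [Finset.sum_comm]
    refine Finset.sum_congr rfl fun x _ => Finset.sum_congr rfl fun y _ => ?_
    rw [mul_comm (v y)]
  rw [e2, e3]
  have b1 : ∑ x ∈ T, ∑ y ∈ T, (if Fol x y then v x * v y / 2 else 0) ≤
      ∑ x ∈ T, ∑ y ∈ T, (if Fol x y then v x ^ 2 / 4 else 0) +
        ∑ x ∈ T, ∑ y ∈ T, (if Fol x y then v y ^ 2 / 4 else 0) := by
    rw [← Finset.sum_add_distrib]
    refine Finset.sum_le_sum fun x _ => ?_
    rw [← Finset.sum_add_distrib]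
    refine Finset.sum_le_sum fun y _ => ?_
    split_ifs
    · nlinarith [sq_nonneg (v x - v y)]
    · norm_num
  have b2 : ∑ x ∈ T, ∑ y ∈ T, (if Fol x y then v x ^ 2 / 4 else 0) ≤ ∑ x ∈ T, v x ^ 2 / 4 := by
    refine Finset.sum_le_sum fun x hx => ?_
    have h0 : (0 : ℝ) ≤ v x ^ 2 / 4 := by positivity
    by_cases h1 : ∃ y ∈ T, Fol x y
    · obtain ⟨y, hy, hxy⟩ := h1
      rw [Finset.sum_eq_single_of_mem y hy, if_pos hxy]
      intro z hz hzy
      rw [if_neg]
      intro h2
      exact hzy (fol_unique h2 hxy (hT z hz y hy))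
    · rw [Finset.sum_eq_zero]
      · exact h0
      · intro y hy
        rw [if_neg fun h => h1 ⟨y, hy, h⟩]
  have b3 : ∑ x ∈ T, ∑ y ∈ T, (if Fol x y then v y ^ 2 / 4 else 0) ≤ ∑ y ∈ T, v y ^ 2 / 4 := by
    rw [Finset.sum_comm]
    refine Finset.sum_le_sum fun y hy => ?_
    have h0 : (0 : ℝ) ≤ v y ^ 2 / 4 := by positivity
    by_cases h1 : ∃ x ∈ T, Fol x y
    · obtain ⟨x, hx, hxy⟩ := h1
      rw [Finset.sum_eq_single_of_mem x hx, if_pos hxy]
      intro z hz hzx
      rw [if_neg]
      intro h2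
      exact hzx (fol_unique' h2 hxy (hT z hz x hx))
    · rw [Finset.sum_eq_zero]
      · exact h0
      · intro x hx
        rw [if_neg fun h => h1 ⟨x, hx, h⟩]
  have b4 : ∑ x ∈ T, v x ^ 2 / 4 = (∑ x ∈ T, v x ^ 2) / 4 := (Finset.sum_div T _ 4).symm
  have b5 : 0 ≤ ∑ x ∈ T, v x ^ 2 := Finset.sum_nonneg fun x _ => sq_nonneg _
  linarith

/-- three different neighbours do not exist -/
theorem no_three (T : Finset (Pr n)) (hT : ∀ x ∈ T, ∀ y ∈ T, vM n x y ≠ 0) {x y₁ y₂ y₃ : Pr n}
    (h1 : y₁ ∈ T) (h2 : y₂ ∈ T) (h3 : y₃ ∈ T) (e1 : vlab x y₁ = 3) (e2 : vlab x y₂ = 3)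
    (e3 : vlab x y₃ = 3) (n12 : y₁ ≠ y₂) (n13 : y₁ ≠ y₃) (n23 : y₂ ≠ y₃) : False := by
  have key : ∀ y : Pr n, vlab x y = 3 → Fol x y ∨ Fol y x := by
    intro y hy
    rcases vlab_cases (x := x) (y := y) (by rw [hy]; decide) with h | h | h | h
    · subst h
      simp [vlab] at hy
    · exact Or.inl h
    · exact Or.inr h
    · rw [vlab_dj h] at hy
      exact absurd hy (by decide)
  rcases key _ e1 with a1 | a1 <;> rcases key _ e2 with a2 | a2 <;> rcases key _ e3 with a3 | a3
  · exact n12 (fol_unique a1 a2 (hT _ h1 _ h2))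
  · exact n12 (fol_unique a1 a2 (hT _ h1 _ h2))
  · exact n13 (fol_unique a1 a3 (hT _ h1 _ h3))
  · exact n23 (fol_unique' a2 a3 (hT _ h2 _ h3))
  · exact n23 (fol_unique a2 a3 (hT _ h2 _ h3))
  · exact n13 (fol_unique' a1 a3 (hT _ h1 _ h3))
  · exact n12 (fol_unique' a1 a2 (hT _ h1 _ h2))
  · exact n12 (fol_unique' a1 a2 (hT _ h1 _ h2))

theorem vlab_le (x y : Pr n) : vlab x y ≤ 3 := by
  unfold vlab
  split_ifs <;> decide

/-- a set without label `0` is not one of the exceptional diagrams -/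
theorem not_ex (T : Finset (Pr n)) (hT : ∀ x ∈ T, ∀ y ∈ T, vM n x y ≠ 0) (c : Ex) (hc : c ≠ .H3) :
    ¬ IsTy (vM n) T c.num c.lab := by
  rintro ⟨e, he⟩
  have three : ∀ (r a b d : Fin c.num), a < r → b < r → r < d → a ≠ b → c.lab a r = 3 → c.lab b r = 3 →
      c.lab r d = 3 → False := by
    intro r a b d har hbr hrd hab l1 l2 l3
    have s : ∀ x y : Pr n, vlab x y = vlab y x := fun x y => (vM n).symmetric x y
    refine no_three T hT (x := e r) (e a).2 (e b).2 (e d).2 ?_ ?_ ?_ ?_ ?_ ?_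
    · rw [s]
      exact (he a r har).trans l1
    · rw [s]
      exact (he b r hbr).trans l2
    · exact (he r d hrd).trans l3
    · intro h
      exact hab (e.injective (Subtype.ext h))
    · intro h
      exact (har.trans hrd).ne (e.injective (Subtype.ext h))
    · intro h
      exact (hbr.trans hrd).ne (e.injective (Subtype.ext h))
  have big : ∀ a b : Fin c.num, a < b → 3 < c.lab a b → False := by
    intro a b hab h
    have h1 := vlab_le (e a : Pr n) (e b : Pr n)
    have h2 : vlab (e a : Pr n) (e b : Pr n) = c.lab a b := he a b hab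
    omega
  cases c with
  | E6 => exact three (3 : Fin 6) (0 : Fin 6) (2 : Fin 6) (4 : Fin 6) (by decide) (by decide) (by decide) (by decide) (by decide) (by decide) (by decide)
  | E7 => exact three (3 : Fin 7) (0 : Fin 7) (2 : Fin 7) (4 : Fin 7) (by decide) (by decide) (by decide) (by decide) (by decide) (by decide) (by decide)
  | E8 => exact three (3 : Fin 8) (0 : Fin 8) (2 : Fin 8) (4 : Fin 8) (by decide) (by decide) (by decide) (by decide) (by decide) (by decide) (by decide)
  | F4 => exact big (1 : Fin 4) (2 : Fin 4) (by decide) (by decide)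
  | H3 => exact hc rfl
  | H4 => exact big (0 : Fin 4) (1 : Fin 4) (by decide) (by decide)
  | tE6 => exact three (4 : Fin 7) (1 : Fin 7) (3 : Fin 7) (5 : Fin 7) (by decide) (by decide) (by decide) (by decide) (by decide) (by decide) (by decide)
  | tE7 => exact three (4 : Fin 8) (0 : Fin 8) (3 : Fin 8) (5 : Fin 8) (by decide) (by decide) (by decide) (by decide) (by decide) (by decide) (by decide)
  | tE8 => exact three (3 : Fin 9) (0 : Fin 9) (2 : Fin 9) (4 : Fin 9) (by decide) (by decide) (by decide) (by decide) (by decide) (by decide) (by decide)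
  | tF4 => exact big (1 : Fin 5) (2 : Fin 5) (by decide) (by decide)

end Pool.Agent.H54.VB
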