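import Pool.Agent.H54.VB.Defs
import Pool.Agent.H54.VB.Mat
import Pool.Agent.H98.FJ.Closed

/-!
# Virtual braid groups embed in semidirect products of Artin groups with symmetric groups

The permutations of `{0, …, n}` act on the ordered pairs and on the Artin group of the matrix `vM n`. The virtual braid group is
isomorphic to the semidirect product; here only the injectivity of the homomorphism to the semidirect product is proved.
-/

set_option autoImplicit false

namespace Pool.Agent.H54.VB

open Pool.Agent.H52.PAG Pool.Agent.H98.FJ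

variable {n : ℕ}

/-- the action on the pairs -/
def pact (p : Equiv.Perm (Fin (n + 1))) (x : Pr n) : Pr n := ⟨(p x.1.1, p x.1.2), fun h => x.2 (p.injective h)⟩

theorem pact_one (x : Pr n) : pact 1 x = x := rfl

theorem pact_mul (p q : Equiv.Perm (Fin (n + 1))) (x : Pr n) : pact (p * q) x = pact p (pact q x) := rfl

theorem pact_inj (p : Equiv.Perm (Fin (n + 1))) {x y : Pr n} (h : pact p x = pact p y) : x = y := by
  have h1 : (p x.1.1, p x.1.2) = (p y.1.1, p y.1.2) := congrArg Subtype.val h
  have h2 := Prod.ext_iff.1 h1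
  exact Subtype.ext (Prod.ext (p.injective h2.1) (p.injective h2.2))

theorem vlab_pact (p : Equiv.Perm (Fin (n + 1))) (x y : Pr n) : vlab (pact p x) (pact p y) = vlab x y := by
  have e1 : (pact p x = pact p y) = (x = y) := propext ⟨pact_inj p, fun h => by rw [h]⟩
  have e2 : ∀ a b : Pr n, Fol (pact p a) (pact p b) = Fol a b := by
    intro a b
    refine propext (and_congr ?_ ?_)
    · exact p.injective.eq_iff
    · exact p.injective.ne_iff
  have e3 : Dj (pact p x) (pact p y) = Dj x y := by
    refine propext (and_congr ?_ (and_congr ?_ (and_congr ?_ ?_)))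
    all_goals exact p.injective.ne_iff
  unfold vlab
  simp only [e1, e2, e3]

/-- the endomorphism of the Artin group -/
def aact (p : Equiv.Perm (Fin (n + 1))) : Art (vM n) →* Art (vM n) :=
  lift (fun x => gen (vM n) (pact p x)) fun i j h => by
    have h1 : vM n (pact p i) (pact p j) = vM n i j := vlab_pact p i j
    have h2 := gen_rel (M := vM n) (i := pact p i) (j := pact p j) (by rw [h1]; exact h)
    rw [h1] at h2
    exact h2

theorem aact_gen (p : Equiv.Perm (Fin (n + 1))) (x : Pr n) :
    aact p (gen (vM n) x) = gen (vM n) (pact p x) := lift_gen _ _ x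

theorem aact_one : aact (1 : Equiv.Perm (Fin (n + 1))) = MonoidHom.id _ :=
  art_ext fun i => by rw [aact_gen]; rfl

theorem aact_mul (p q : Equiv.Perm (Fin (n + 1))) : aact (p * q) = (aact p).comp (aact q) :=
  art_ext fun i => by rw [aact_gen, MonoidHom.comp_apply, aact_gen, aact_gen, pact_mul]

/-- the action on the Artin group -/
def phi (n : ℕ) : Equiv.Perm (Fin (n + 1)) →* MulAut (Art (vM n)) where
  toFun p :=
    { toFun := aact p
      invFun := aact p⁻¹
      left_inv := fun x => by
        rw [← MonoidHom.comp_apply, ← aact_mul, inv_mul_cancel, aact_one, MonoidHom.id_apply]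
      right_inv := fun x => by
        rw [← MonoidHom.comp_apply, ← aact_mul, mul_inv_cancel, aact_one, MonoidHom.id_apply]
      map_mul' := map_mul (aact p) }
  map_one' := MulEquiv.ext fun x => by
    change aact 1 x = x
    rw [aact_one, MonoidHom.id_apply]
  map_mul' p q := MulEquiv.ext fun x => by
    change aact (p * q) x = aact p (aact q x)
    rw [aact_mul, MonoidHom.comp_apply]

/-- the semidirect product -/
abbrev SD (n : ℕ) : Type := Art (vM n) ⋊[phi n] Equiv.Perm (Fin (n + 1))

/-- the pair `(i, i + 1)` -/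
def pr (i : Fin n) : Pr n := ⟨(i.castSucc, i.succ), by
  intro h
  have := congrArg Fin.val h
  simp at this⟩

theorem alt2 {G : Type} [Group G] (x y : G) : alt x y 2 = x * y := by simp [alt]

theorem alt3 {G : Type} [Group G] (x y : G) : alt x y 3 = x * y * x := by simp [alt, mul_assoc]

theorem gen_comm {x y : Pr n} (h : Dj x y) : gen (vM n) x * gen (vM n) y = gen (vM n) y * gen (vM n) x := by
  have h1 : vM n x y = 2 := vlab_dj h
  have h2 := gen_rel (M := vM n) (i := x) (j := y) (by rw [h1]; decide)
  rwa [h1, alt2, alt2] at h2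

theorem gen_braid {x y : Pr n} (h : Fol x y) :
    gen (vM n) x * gen (vM n) y * gen (vM n) x = gen (vM n) y * gen (vM n) x * gen (vM n) y := by
  have h1 : vM n x y = 3 := vlab_fol h
  have h2 := gen_rel (M := vM n) (i := x) (j := y) (by rw [h1]; decide)
  rwa [h1, alt3, alt3] at h2

theorem dj_pr {i j : Fin n} (h : i.val + 1 < j.val) : Dj (pr i) (pr j) := by
  refine ⟨?_, ?_, ?_, ?_⟩ <;>
    · intro h1
      have h2 := congrArg Fin.val h1
      simp only [pr, Fin.val_castSucc, Fin.val_succ] at h2
      omega

theorem fol_pr {i j : Fin n} (h : i.val + 1 = j.val) : Fol (pr i) (pr j) := by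
  refine ⟨?_, ?_⟩
  · refine Fin.ext ?_
    simp only [pr, Fin.val_castSucc, Fin.val_succ]
    exact h
  · intro h1
    have h2 := congrArg Fin.val h1
    simp only [pr, Fin.val_castSucc, Fin.val_succ] at h2
    omega

theorem pact_pr {p : Equiv.Perm (Fin (n + 1))} {i j : Fin n} (h1 : p i.castSucc = j.castSucc) (h2 : p i.succ = j.succ) :
    pact p (pr i) = pr j := Subtype.ext (Prod.ext h1 h2)

/-- the homomorphism to the semidirect product -/
def Psi (n : ℕ) : VB n →* SD n :=
  vlift (fun i => SemidirectProduct.inl (gen (vM n) (pr i))) SemidirectProduct.inr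
    (fun i j h => by rw [← map_mul, ← map_mul, gen_comm (dj_pr h)])
    (fun i j h => by rw [← map_mul, ← map_mul, ← map_mul, ← map_mul, gen_braid (fol_pr h)])
    (fun p i j h1 h2 => by
      have h3 := SemidirectProduct.inl_aut (φ := phi n) p (gen (vM n) (pr i))
      have h4 : phi n p (gen (vM n) (pr i)) = gen (vM n) (pr j) :=
        (aact_gen p (pr i)).trans (by rw [pact_pr h1 h2])
      rw [h4] at h3
      rw [h3, map_inv, inv_mul_cancel_right])

/-- a permutation which maps some `(i, i + 1)` to the pair -/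
theorem exists_perm (x : Pr n) : ∃ (p : Equiv.Perm (Fin (n + 1))) (i : Fin n), pact p (pr i) = x := by
  have hn : 0 < n := by
    by_contra h
    have h0 : n = 0 := by omega
    subst h0
    exact x.2 (Subsingleton.elim (α := Fin 1) _ _)
  let i : Fin n := ⟨0, hn⟩
  obtain ⟨p, hp⟩ := Equiv.Perm.exists_extending_pair (α := Fin 2) ![i.castSucc, i.succ] ![x.1.1, x.1.2] (by
      intro a b h
      have hne := (pr i).2
      fin_cases a <;> fin_cases b <;> simp_all [pr]) (by
      intro a b h
      have hne := x.2
      fin_cases a <;> fin_cases b <;> simp_all)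
  refine ⟨p, i, Subtype.ext (Prod.ext ?_ ?_)⟩
  · exact hp 0
  · exact hp 1

/-- the image of the generator of the pair `x` -/
noncomputable def Dl (x : Pr n) : VB n :=
  tH (exists_perm x).choose * sg (exists_perm x).choose_spec.choose * (tH (exists_perm x).choose)⁻¹

theorem tH_sg {p : Equiv.Perm (Fin (n + 1))} {i j : Fin n} (h : pact p (pr i) = pr j) :
    tH p * sg i * (tH p)⁻¹ = sg j := by
  have h0 := Prod.ext_iff.1 (congrArg Subtype.val h)
  have h1 : tt p * sg i = sg j * tt p := tt_sg h0.1 h0.2
  exact mul_inv_eq_iff_eq_mul.2 h1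

theorem Dl_eq {x : Pr n} (p : Equiv.Perm (Fin (n + 1))) (i : Fin n) (h : pact p (pr i) = x) :
    Dl x = tH p * sg i * (tH p)⁻¹ := by
  have key : ∀ (q : Equiv.Perm (Fin (n + 1))) (j : Fin n), pact q (pr j) = x →
      tH q * sg j * (tH q)⁻¹ = tH p * sg i * (tH p)⁻¹ := by
    intro q j h1
    have h2 : pact (p⁻¹ * q) (pr j) = pr i := by
      rw [pact_mul, h1, ← h, ← pact_mul, inv_mul_cancel, pact_one]
    have h3 := tH_sg h2
    rw [← h3, map_mul, map_inv]
    group
  exact key _ _ (exists_perm x).choose_spec.choose_spec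

theorem Dl_pact (p : Equiv.Perm (Fin (n + 1))) (x : Pr n) : Dl (pact p x) = tH p * Dl x * (tH p)⁻¹ := by
  obtain ⟨q, i, h⟩ := exists_perm x
  rw [Dl_eq q i h, Dl_eq (p * q) i (by rw [pact_mul, h]), map_mul]
  group

theorem Dl_pr (i : Fin n) : Dl (pr i) = sg i := by
  rw [Dl_eq (x := pr i) 1 i (pact_one _), map_one]
  group

theorem Dl_comm {x y : Pr n} (h : Dj x y) : Dl x * Dl y = Dl y * Dl x := by
  obtain ⟨h1, h2, h3, h4⟩ := h
  have hn : 3 < n + 1 := by
    have hcard : (Finset.univ : Finset (Fin (n + 1))).card = n + 1 := by simp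
    have hs : ({x.1.1, x.1.2, y.1.1, y.1.2} : Finset (Fin (n + 1))).card = 4 := by
      rw [Finset.card_insert_of_notMem, Finset.card_insert_of_notMem, Finset.card_insert_of_notMem,
        Finset.card_singleton]
      · simpa using y.2
      · simp only [Finset.mem_insert, Finset.mem_singleton, not_or]
        exact ⟨h3, h4⟩
      · simp only [Finset.mem_insert, Finset.mem_singleton, not_or]
        exact ⟨x.2, h1, h2⟩
    have := Finset.card_le_univ ({x.1.1, x.1.2, y.1.1, y.1.2} : Finset (Fin (n + 1)))
    rw [hs, Fintype.card_fin] at this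
    omega
  let i : Fin n := ⟨0, by omega⟩
  let j : Fin n := ⟨2, by omega⟩
  obtain ⟨p, hp⟩ := Equiv.Perm.exists_extending_pair (α := Fin 4) ![i.castSucc, i.succ, j.castSucc, j.succ]
    ![x.1.1, x.1.2, y.1.1, y.1.2] (by
      intro a b h
      have h' := congrArg Fin.val h
      fin_cases a <;> fin_cases b <;> simp_all [i, j]) (by
      intro a b h
      have hx := x.2
      have hy := y.2
      fin_cases a <;> fin_cases b <;> simp_all)
  have e1 : pact p (pr i) = x := Subtype.ext (Prod.ext (hp 0) (hp 1))
  have e2 : pact p (pr j) = y := Subtype.ext (Prod.ext (hp 2) (hp 3))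
  have h5 : sg i * sg j = sg j * sg i := sg_comm (i := i) (j := j) (by simp [i, j])
  rw [Dl_eq p i e1, Dl_eq p j e2]
  calc tH p * sg i * (tH p)⁻¹ * (tH p * sg j * (tH p)⁻¹) = tH p * (sg i * sg j) * (tH p)⁻¹ := by group
    _ = tH p * (sg j * sg i) * (tH p)⁻¹ := by rw [h5]
    _ = _ := by group

theorem Dl_braid {x y : Pr n} (h : Fol x y) : Dl x * Dl y * Dl x = Dl y * Dl x * Dl y := by
  obtain ⟨h1, h2⟩ := h
  have hy : x.1.2 ≠ y.1.2 := fun h => y.2 (h1.symm.trans h)
  have hn : 2 < n + 1 := by
    have hs : ({x.1.1, x.1.2, y.1.2} : Finset (Fin (n + 1))).card = 3 := by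
      rw [Finset.card_insert_of_notMem, Finset.card_insert_of_notMem, Finset.card_singleton]
      · simpa using hy
      · simp only [Finset.mem_insert, Finset.mem_singleton, not_or]
        exact ⟨x.2, h2⟩
    have := Finset.card_le_univ ({x.1.1, x.1.2, y.1.2} : Finset (Fin (n + 1)))
    rw [hs, Fintype.card_fin] at this
    omega
  let i : Fin n := ⟨0, by omega⟩
  let j : Fin n := ⟨1, by omega⟩
  obtain ⟨p, hp⟩ := Equiv.Perm.exists_extending_pair (α := Fin 3) ![i.castSucc, i.succ, j.succ]
    ![x.1.1, x.1.2, y.1.2] (by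
      intro a b h
      have h' := congrArg Fin.val h
      fin_cases a <;> fin_cases b <;> simp_all [i, j]) (by
      intro a b h
      have hx := x.2
      fin_cases a <;> fin_cases b <;> simp_all)
  have e0 : i.succ = j.castSucc := Fin.ext rfl
  have e1 : pact p (pr i) = x := Subtype.ext (Prod.ext (hp 0) (hp 1))
  have e2 : pact p (pr j) = y := Subtype.ext (Prod.ext ((congrArg p e0.symm).trans ((hp 1).trans h1)) (hp 2))
  have h5 : sg i * sg j * sg i = sg j * sg i * sg j := sg_braid (i := i) (j := j) (by simp [i, j])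
  rw [Dl_eq p i e1, Dl_eq p j e2]
  calc tH p * sg i * (tH p)⁻¹ * (tH p * sg j * (tH p)⁻¹) * (tH p * sg i * (tH p)⁻¹) =
        tH p * (sg i * sg j * sg i) * (tH p)⁻¹ := by group
    _ = tH p * (sg j * sg i * sg j) * (tH p)⁻¹ := by rw [h5]
    _ = _ := by group

/-- the homomorphism from the Artin group -/
noncomputable def fA (n : ℕ) : Art (vM n) →* VB n :=
  lift Dl fun x y h => by
    rcases vlab_cases (x := x) (y := y) h with h1 | h1 | h1 | h1
    · rw [h1]
    · have h2 : vM n x y = 3 := vlab_fol h1
      rw [h2, alt3, alt3]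
      exact Dl_braid h1
    · have h2 : vM n x y = 3 := ((vM n).symmetric x y).trans (vlab_fol h1)
      rw [h2, alt3, alt3]
      exact (Dl_braid h1).symm
    · have h2 : vM n x y = 2 := vlab_dj h1
      rw [h2, alt2, alt2]
      exact Dl_comm h1

theorem fA_gen (x : Pr n) : fA n (gen (vM n) x) = Dl x := lift_gen _ _ x

/-- the inverse homomorphism -/
noncomputable def Phi (n : ℕ) : SD n →* VB n :=
  SemidirectProduct.lift (fA n) tH fun p => art_ext fun x => by
    change fA n (aact p (gen (vM n) x)) = tH p * fA n (gen (vM n) x) * (tH p)⁻¹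
    rw [aact_gen, fA_gen, fA_gen, Dl_pact]

theorem Phi_Psi (n : ℕ) : (Phi n).comp (Psi n) = MonoidHom.id _ :=
  vb_ext (fun i => by
    rw [MonoidHom.comp_apply, MonoidHom.id_apply]
    unfold Psi Phi
    rw [vlift_sg, SemidirectProduct.lift_inl, fA_gen, Dl_pr]) fun p => by
    rw [MonoidHom.comp_apply, MonoidHom.id_apply]
    unfold Psi Phi
    rw [vlift_tt, SemidirectProduct.lift_inr]
    rfl

theorem Psi_injective (n : ℕ) : Function.Injective (Psi n) :=
  Function.LeftInverse.injective (g := Phi n) fun x => DFunLike.congr_fun (Phi_Psi n) x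

/-- the virtual braid group is in the class if the Artin group is in the class -/
theorem vb_mem {C : (G : Type) → [Group G] → Prop} (hC : Inherits C) (n : ℕ) (h : C (Art (vM n))) : C (VB n) := by
  refine hC.of_injective (Psi n) (Psi_injective n) ?_
  refine hC.index (SD n) (SemidirectProduct.inl : Art (vM n) →* SD n).range ?_ ?_
  · rw [SemidirectProduct.range_inl_eq_ker_rightHom]
    exact Subgroup.finiteIndex_ker _
  · exact hC.iso _ _ (MonoidHom.ofInjective SemidirectProduct.inl_injective) h

end Pool.Agent.H54.VB
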