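import Pool.Agent.H52.CD.Fin

/-!
# Locally reducible Artin groups, Artin groups without the label 3

An Artin group is locally reducible (Charney) if no irreducible triple of generators is of finite type, that is, if
`1 / M i j + 1 / M j k + 1 / M i k ≤ 1` for all triples with `M i j ≠ 2` and `M j k ≠ 2` (`1 / 0 = 0`). This is so if no label is
equal to `3`. Then no irreducible set of at least three generators without label `0` has only spherical triples. So the Artin
group is in the class.
-/

set_option autoImplicit false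

namespace Pool.Agent.H54.VB

open Pool.Agent.H98.FJ Pool.Agent.H54.CX Pool.Agent.H52.PAG Pool.Agent.H52.CD
open Pool.Agent.H54.AR (rst)

theorem inv_le {n : ℕ} {m : ℕ} (hm : 0 < m) (h : m ≤ n) : (1 : ℝ) / n ≤ 1 / m := by
  have h1 : (0 : ℝ) < m := by exact_mod_cast hm
  have h2 : (m : ℝ) ≤ n := by exact_mod_cast h
  exact one_div_le_one_div_of_le h1 h2

theorem four_le {B : Type} (M : CoxeterMatrix B) {i j : B} (h : i ≠ j) (h0 : M i j ≠ 0) (h2 : M i j ≠ 2)
    (h3 : M i j ≠ 3) : 4 ≤ M i j := by
  have h1 := M.off_diagonal i j h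
  change M i j ≠ 1 at h1
  omega

/-- the locally reducible Artin groups are in the class -/
theorem loc_red (C : (G : Type) → [Group G] → Prop) (hC : Inherits C) (hE : Extension C)
    (hcat : Cat2 C) (hGL : ∀ n : ℕ, C (GL (Fin n) ℤ))
    (hF : ∀ (n : ℕ) (φ : MulAut (FreeGroup (Fin n))), C (FreeGroup (Fin n) ⋊[zpowersHom _ φ] Multiplicative ℤ))
    (B : Type) (M : CoxeterMatrix B)
    (hM : ∀ i j k : B, i ≠ j → j ≠ k → i ≠ k → M i j ≠ 2 → M j k ≠ 2 → (1 : ℝ) / M i j + 1 / M j k + 1 / M i k ≤ 1) :
    C (Art M) :=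
  aff_mem4 hC hE hF hcat hGL B M fun K hK _ => Or.inr fun T hT hc hI ht => by
    classical
    exfalso
    obtain ⟨i, hi⟩ : T.Nonempty := Finset.card_pos.mp (by omega)
    obtain ⟨i', hi', j, hj, hji, hij⟩ := hI {i} (by simpa using hi) ⟨i, by simp⟩ (by
      intro h
      rw [← h] at hc
      simp at hc)
    have e : i' = i := by simpa using hi'
    subst e
    have hji' : i' ≠ j := fun h => hji (by simp [h])
    obtain ⟨a, ha, k, hk, hkL, hak⟩ := hI {i', j} (by
      intro x hx
      rcases Finset.mem_insert.mp hx with rfl | hx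
      · exact hi
      · rw [Finset.mem_singleton.mp hx]
        exact hj) ⟨i', by simp⟩ (by
      intro h
      have := Finset.card_le_two (a := i') (b := j)
      rw [h] at this
      omega)
    have hki : k ≠ i' := fun h => hkL (by simp [h])
    have hkj : k ≠ j := fun h => hkL (by simp [h])
    have key : ∀ b a k : B, b ∈ T → a ∈ T → k ∈ T → b ≠ a → a ≠ k → b ≠ k → M b a ≠ 2 → M a k ≠ 2 → False :=
      fun b a k hb ha hk h1 h2 h3' m1 m2 =>
        absurd (hM b a k h1 h2 h3' m1 m2) (not_le.mpr (ht b hb a ha k hk h1 h2 h3'))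
    rcases Finset.mem_insert.mp ha with rfl | ha
    · exact key j a k hj hi hk hji'.symm (Ne.symm hki) (Ne.symm hkj) (by rw [M.symmetric]; exact hij) hak
    · have e2 : a = j := Finset.mem_singleton.mp ha
      subst e2
      exact key i' a k hi hj hk hji' (Ne.symm hkj) (Ne.symm hki) hij hak

/-- the Artin groups without label `3` are in the class -/
theorem no_three (C : (G : Type) → [Group G] → Prop) (hC : Inherits C) (hE : Extension C)
    (hcat : Cat2 C) (hGL : ∀ n : ℕ, C (GL (Fin n) ℤ))
    (hF : ∀ (n : ℕ) (φ : MulAut (FreeGroup (Fin n))), C (FreeGroup (Fin n) ⋊[zpowersHom _ φ] Multiplicative ℤ))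
    (B : Type) (M : CoxeterMatrix B) (h3 : ∀ i j, M i j ≠ 3) : C (Art M) := by
  refine loc_red C hC hE hcat hGL hF B M fun i j k h1 h2 h4 m1 m2 => ?_
  have q : ∀ a b : B, a ≠ b → M a b ≠ 2 → (1 : ℝ) / M a b ≤ 1 / 4 := by
    intro a b h m
    by_cases h0 : M a b = 0
    · rw [h0]
      norm_num
    · simpa using inv_le (m := 4) (by norm_num) (four_le M h h0 m (h3 a b))
  have q3 : (1 : ℝ) / M i k ≤ 1 / 2 := by
    by_cases h0 : M i k = 0
    · rw [h0]
      norm_num
    · have o := M.off_diagonal i k h4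
      change M i k ≠ 1 at o
      simpa using inv_le (m := 2) (by norm_num) (show 2 ≤ M i k by omega)
  have := q i j h1 m1
  have := q j k h2 m2
  linarith

end Pool.Agent.H54.VB
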